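import Pool.Agent.Helper865.Wid.Final

/-!
# Packing convex sets of given minimum width into the unit ball

`P d t` is the largest number of convex sets of width at least `t` in a packing in the unit ball
of `ℝ^d` (definitions in `Pool.Agent.Helper865.Wid.Defs`).
-/

set_option autoImplicit false

open Filter Topology

namespace Pool.Agent.Results.MP_332d77_co.WidthPacking

open Pool.Agent.Helper865.Wid

/-- Two-sided bounds for `P(d,t)` for all `d` and all `0 < t ≤ 1`, the exact asymptotics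
`t ^ 2 * P(2,t) → π √3`, and the exact value `P(2,t) = 4` for `249/250 ≤ t ≤ 1`. -/
theorem result :
    (∀ (d : ℕ) (t : ℝ), 1 ≤ d → 0 < t → t ≤ 1 →
      (3 / (4 * t)) ^ d ≤ (P d t : ℝ) ∧ (P d t : ℝ) ≤ ((2 * d).choose d : ℝ) / t ^ d ∧
      2 ^ d ≤ P d t ∧ (1 / t - 1 / 2) ^ d ≤ (P d t : ℝ)) ∧
    (∀ t : ℝ, 0 < t → (P 2 t : ℝ) ≤ Real.pi * √3 / t ^ 2) ∧
    (∀ t : ℝ, 0 < t → t ≤ √3 / 2 →
      Real.pi * √3 * (1 - 2 * t / √3) ^ 2 / t ^ 2 ≤ (P 2 t : ℝ)) ∧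
    Tendsto (fun t : ℝ => t ^ 2 * (P 2 t : ℝ)) (𝓝[>] 0) (𝓝 (Real.pi * √3)) ∧
    (∀ t : ℝ, 249 / 250 ≤ t → t ≤ 1 → P 2 t = 4) :=
  final

end Pool.Agent.Results.MP_332d77_co.WidthPacking
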